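import Mathlib

/-!
# Leonard triples without q-commutator relations

For every `d ≥ 2` the Krawtchouk pair `A, A^*` on `K ^ (d + 1)` together with
`A^ε = 3 A + 4 A^*` is a Leonard triple, and `A A^* - q A^* A` is not in the linear span of
`I, A, A^*, A^ε` for any scalar `q`.
-/

namespace Pool.Agent.Results.MP_4722b0_al.NoCommonQ

open Polynomial

variable {K : Type} [Field K]

/-- Irreducible tridiagonal matrices. -/
def IrredTridiag {d : ℕ} (M : Matrix (Fin (d + 1)) (Fin (d + 1)) K) : Prop :=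
  (∀ i j : Fin (d + 1), (i : ℕ) + 1 < j ∨ (j : ℕ) + 1 < i → M i j = 0) ∧
  ∀ i j : Fin (d + 1), (i : ℕ) + 1 = j ∨ (j : ℕ) + 1 = i → M i j ≠ 0

/-- In the basis given by the columns of `P`, the map `X` is represented by a diagonal matrix and
`Y`, `Z` by irreducible tridiagonal ones. -/
def GoodBasis {d : ℕ} (P : GL (Fin (d + 1)) K) (X Y Z : Matrix (Fin (d + 1)) (Fin (d + 1)) K) :
    Prop :=
  (∃ v, P⁻¹.val * X * P.val = Matrix.diagonal v) ∧
    IrredTridiag (P⁻¹.val * Y * P.val) ∧ IrredTridiag (P⁻¹.val * Z * P.val)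

/-- Leonard triples on `K ^ (d + 1)`. -/
def LeonardTriple {d : ℕ} (X Y Z : Matrix (Fin (d + 1)) (Fin (d + 1)) K) : Prop :=
  (∃ P, GoodBasis P X Y Z) ∧ (∃ P, GoodBasis P Y Z X) ∧ ∃ P, GoodBasis P Z X Y

/-- The span of `I, A, B, E`. -/
def Sp {d : ℕ} (A B E : Matrix (Fin (d + 1)) (Fin (d + 1)) K) :
    Submodule K (Matrix (Fin (d + 1)) (Fin (d + 1)) K) := Submodule.span K {1, A, B, E}

/-- The q-commutator `A B - q B A`. -/
def qc {d : ℕ} (q : K) (A B : Matrix (Fin (d + 1)) (Fin (d + 1)) K) :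
    Matrix (Fin (d + 1)) (Fin (d + 1)) K := A * B - q • (B * A)

/-- The matrix `A`. -/
def matA (K : Type) [Field K] (d : ℕ) : Matrix (Fin (d + 1)) (Fin (d + 1)) K :=
  Matrix.of fun i j => if (i : ℕ) + 1 = j then (d : K) - (i : ℕ) else
    if (j : ℕ) + 1 = i then ((i : ℕ) : K) else 0

/-- The matrix `A^*`. -/
def matB (K : Type) [Field K] (d : ℕ) : Matrix (Fin (d + 1)) (Fin (d + 1)) K :=
  Matrix.diagonal fun i => (d : K) - 2 * (i : ℕ)

/-- The third matrix `3 A + 4 A^*`. -/
def matE (K : Type) [Field K] (d : ℕ) : Matrix (Fin (d + 1)) (Fin (d + 1)) K :=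
  (3 : K) • matA K d + (4 : K) • matB K d

/-- The vector of a polynomial of degree at most `d`. -/
noncomputable def vec (d : ℕ) (p : K[X]) : Fin (d + 1) → K := fun i => p.coeff i / (d.choose i : K)

lemma vec_add (d : ℕ) (p q : K[X]) : vec d (p + q) = vec d p + vec d q := by
  funext i
  simp only [vec, coeff_add, Pi.add_apply, add_div]

lemma vec_C_mul (d : ℕ) (c : K) (p : K[X]) : vec d (C c * p) = c • vec d p := by
  funext i
  simp only [vec, coeff_C_mul, Pi.smul_apply, smul_eq_mul, mul_div_assoc]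

/-- A first order differential operator. -/
noncomputable def op (P Q : K[X]) (d : ℕ) (p : K[X]) : K[X] := P * derivative p + C (d : K) * Q * p

/-- The matrix `Y` corresponds to the operator given by `P`, `Q`. -/
def Rep (d : ℕ) (Y : Matrix (Fin (d + 1)) (Fin (d + 1)) K) (P Q : K[X]) : Prop :=
  ∀ p : K[X], p.natDegree ≤ d → Y.mulVec (vec d p) = vec d (op P Q d p)

variable [CharZero K]

omit [CharZero K] in
lemma C_2 : (C (2 : K) : K[X]) = 2 := map_ofNat C 2
omit [CharZero K] in
lemma C_3 : (C (3 : K) : K[X]) = 3 := map_ofNat C 3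
omit [CharZero K] in
lemma C_4 : (C (4 : K) : K[X]) = 4 := map_ofNat C 4
omit [CharZero K] in
lemma C_5 : (C (5 : K) : K[X]) = 5 := map_ofNat C 5

lemma choose_rel (d i : ℕ) (hi : i ≤ d) :
    (d.choose (i + 1) : K) * ((i : K) + 1) = (d.choose i : K) * ((d : K) - i) := by
  have h := Nat.choose_succ_right_eq d i
  have h2 : ((d.choose (i + 1) * (i + 1) : ℕ) : K) = ((d.choose i * (d - i) : ℕ) : K) := by rw [h]
  rw [Nat.cast_mul, Nat.cast_mul, Nat.cast_sub hi] at h2
  push_cast at h2
  exact h2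

lemma choose_ne (d i : ℕ) (hi : i ≤ d) : (d.choose i : K) ≠ 0 := by
  exact_mod_cast (Nat.choose_pos hi).ne'

lemma matA_mulVec (d : ℕ) (V : ℕ → K) (hV : V (d + 1) = 0) (i : Fin (d + 1)) :
    (matA K d).mulVec (fun j => V j) i =
      ((d : K) - (i : ℕ)) * V (i + 1) + ((i : ℕ) : K) * V (i - 1) := by
  have hi := i.isLt
  have h1 : (matA K d).mulVec (fun j => V j) i =
      ∑ j : Fin (d + 1), (fun j : ℕ => (if (i : ℕ) + 1 = j then ((d : K) - (i : ℕ)) * V j else 0) +
        (if j + 1 = (i : ℕ) then ((i : ℕ) : K) * V j else 0)) j := by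
    unfold Matrix.mulVec dotProduct matA
    apply Finset.sum_congr rfl
    intro j _
    simp only [Matrix.of_apply]
    by_cases h1 : (i : ℕ) + 1 = j
    · have h2 : ¬ (j : ℕ) + 1 = i := by omega
      simp [h1, h2]
    · by_cases h2 : (j : ℕ) + 1 = i
      · simp [h1, h2]
      · simp [h1, h2]
  rw [h1, Fin.sum_univ_eq_sum_range (fun j : ℕ =>
    (if (i : ℕ) + 1 = j then ((d : K) - (i : ℕ)) * V j else 0) +
        (if j + 1 = (i : ℕ) then ((i : ℕ) : K) * V j else 0)), Finset.sum_add_distrib]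
  congr 1
  · rw [Finset.sum_ite_eq]
    split_ifs with h
    · rfl
    · rw [Finset.mem_range] at h
      have : (i : ℕ) + 1 = d + 1 := by omega
      rw [this, hV, mul_zero]
  · rcases Nat.eq_zero_or_pos (i : ℕ) with h0 | hpos
    · rw [h0]
      simp
    · rw [Finset.sum_eq_single ((i : ℕ) - 1)]
      · rw [if_pos (by omega)]
      · intro j _ hj
        rw [if_neg (by omega)]
      · intro h
        rw [Finset.mem_range] at h
        omega

lemma rep_A (d : ℕ) : Rep d (matA K d) (1 - X ^ 2) X := by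
  intro p hp
  have hV : p.coeff (d + 1) / (d.choose (d + 1) : K) = 0 := by
    rw [coeff_eq_zero_of_natDegree_lt (by omega), zero_div]
  funext i
  have h1 := matA_mulVec d (fun j => p.coeff j / (d.choose j : K)) hV i
  refine h1.trans ?_
  have hi : (i : ℕ) ≤ d := Nat.lt_succ_iff.mp i.isLt
  have hop : (op (1 - X ^ 2) X d p).coeff (i : ℕ) = (((i : ℕ) : K) + 1) * p.coeff (i + 1) +
      ((d : K) - (i : ℕ) + 1) * (if (i : ℕ) = 0 then 0 else p.coeff (i - 1)) := by
    have h : op (1 - X ^ 2) X d p = derivative p - derivative p * X ^ 2 + C (d : K) * (p * X) := by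
      unfold op; ring
    rw [h, coeff_add, coeff_sub, coeff_C_mul, coeff_derivative, coeff_mul_X_pow']
    rcases (i : ℕ) with _ | _ | n
    · simp
    · simp [coeff_mul_X]
      ring
    · rw [if_pos (by omega), show n + 1 + 1 - 2 = n by omega, coeff_derivative, coeff_mul_X,
        if_neg (by omega), show n + 1 + 1 - 1 = n + 1 by omega]
      push_cast
      ring
  show _ = (op (1 - X ^ 2) X d p).coeff (i : ℕ) / (d.choose i : K)
  rw [hop, add_div]
  congr 1
  · rcases Nat.lt_or_ge (i : ℕ) d with hlt | hge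
    · have e1 := choose_rel (K := K) d i hi
      have e2 := choose_ne (K := K) d (i + 1) hlt
      have e3 := choose_ne (K := K) d i hi
      field_simp
      linear_combination (-(p.coeff ((i : ℕ) + 1))) * e1
    · have : (i : ℕ) = d := by omega
      rw [this, coeff_eq_zero_of_natDegree_lt (show p.natDegree < d + 1 by omega)]
      simp
  · rcases h : (i : ℕ) with _ | n
    · simp
    · have hn : n ≤ d := by omega
      have e1 := choose_rel (K := K) d n hn
      have e2 := choose_ne (K := K) d (n + 1) (by omega)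
      have e3 := choose_ne (K := K) d n hn
      rw [if_neg (by omega), show n + 1 - 1 = n by omega]
      field_simp
      push_cast
      linear_combination (p.coeff n) * e1

lemma rep_B (d : ℕ) : Rep d (matB K d) (-2 * X) 1 := by
  intro p _
  funext i
  have h : op (-2 * X) 1 d p = C (d : K) * p - C 2 * (derivative p * X) := by
    unfold op
    rw [C_2]
    ring
  rw [matB, Matrix.mulVec_diagonal]
  show _ = (op (-2 * X) 1 d p).coeff (i : ℕ) / (d.choose i : K)
  rw [h, coeff_sub, coeff_C_mul, coeff_C_mul]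
  simp only [vec]
  rcases (i : ℕ) with _ | n
  · simp
  · rw [coeff_mul_X, coeff_derivative]
    push_cast
    ring

lemma rep_E (d : ℕ) : Rep d (matE K d) (3 * (1 - X ^ 2) + 4 * (-2 * X)) (3 * X + 4) := by
  intro p hp
  rw [matE, Matrix.add_mulVec, Matrix.smul_mulVec, Matrix.smul_mulVec, rep_A d p hp,
    rep_B d p hp, ← vec_C_mul, ← vec_C_mul, ← vec_add]
  congr 1
  unfold op
  rw [C_3, C_4]
  ring

omit [CharZero K] in
/-- The operators act on products of linear forms as derivations. -/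
lemma op_prod (P Q l m : K[X]) (α β γ δ : K) (h1 : P * derivative l + Q * l = C α * l + C β * m)
    (h2 : P * derivative m + Q * m = C γ * l + C δ * m) (a b : ℕ) :
    op P Q (a + b) (l ^ a * m ^ b) = C (a * α + b * δ) * (l ^ a * m ^ b) +
      C (a * β) * (l ^ (a - 1) * m ^ (b + 1)) + C (b * γ) * (l ^ (a + 1) * m ^ (b - 1)) := by
  unfold op
  rw [derivative_mul, derivative_pow, derivative_pow]
  rcases a with _ | a <;> rcases b with _ | b
  · simp
  · simp only [Nat.cast_zero, Nat.cast_add, Nat.cast_one, C_add, C_mul, C_0, C_1, pow_zero, zero_mul,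
      mul_zero, zero_add, one_mul, add_zero, Nat.add_sub_cancel]
    linear_combination ((C (b : K) + 1) * m ^ b) * h2
  · simp only [Nat.cast_zero, Nat.cast_add, Nat.cast_one, C_add, C_mul, C_0, C_1, pow_zero, zero_mul,
      mul_zero, mul_one, add_zero, Nat.add_sub_cancel]
    linear_combination ((C (a : K) + 1) * l ^ a) * h1
  · simp only [Nat.cast_add, Nat.cast_one, C_add, C_mul, C_1, Nat.add_sub_cancel]
    linear_combination ((C (a : K) + 1) * l ^ a * m ^ (b + 1)) * h1 +
      ((C (b : K) + 1) * l ^ (a + 1) * m ^ b) * h2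

/-- The vectors of the products `l ^ (d - j) m ^ j`. -/
noncomputable def w (d : ℕ) (l m : K[X]) (j : ℕ) : Fin (d + 1) → K := vec d (l ^ (d - j) * m ^ j)

/-- The tridiagonal matrix. -/
def tri (d : ℕ) (α β γ δ : K) : Matrix (Fin (d + 1)) (Fin (d + 1)) K :=
  Matrix.of fun i j => if (i : ℕ) = j then ((d : K) - (j : ℕ)) * α + (j : ℕ) * δ else
    if (i : ℕ) = (j : ℕ) + 1 then ((d : K) - (j : ℕ)) * β else
    if (j : ℕ) = (i : ℕ) + 1 then ((j : ℕ) : K) * γ else 0

omit [CharZero K] in
lemma natDegree_prod {d j : ℕ} (hj : j ≤ d) {l m : K[X]} (hl : l.natDegree ≤ 1)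
    (hm : m.natDegree ≤ 1) : (l ^ (d - j) * m ^ j).natDegree ≤ d := by
  have h1 : (l ^ (d - j)).natDegree ≤ d - j := by
    refine natDegree_pow_le.trans ?_
    calc (d - j) * l.natDegree ≤ (d - j) * 1 := Nat.mul_le_mul_left _ hl
      _ = d - j := mul_one _
  have h2 : (m ^ j).natDegree ≤ j := by
    refine natDegree_pow_le.trans ?_
    calc j * m.natDegree ≤ j * 1 := Nat.mul_le_mul_left _ hm
      _ = j := mul_one _
  refine natDegree_mul_le.trans ?_
  omega

omit [CharZero K] in
lemma act {d : ℕ} {Y : Matrix (Fin (d + 1)) (Fin (d + 1)) K} {P Q l m : K[X]} {α β γ δ : K}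
    (hY : Rep d Y P Q) (hl : l.natDegree ≤ 1) (hm : m.natDegree ≤ 1)
    (h1 : P * derivative l + Q * l = C α * l + C β * m)
    (h2 : P * derivative m + Q * m = C γ * l + C δ * m) (j : ℕ) (hj : j ≤ d) :
    Y.mulVec (w d l m j) = (((d : K) - j) * α + j * δ) • w d l m j +
      (((d : K) - j) * β) • w d l m (j + 1) + ((j : K) * γ) • w d l m (j - 1) := by
  have h3 := op_prod P Q l m α β γ δ h1 h2 (d - j) j
  rw [Nat.sub_add_cancel hj, Nat.cast_sub hj] at h3
  unfold w
  rw [hY _ (natDegree_prod hj hl hm), h3, vec_add, vec_add, vec_C_mul, vec_C_mul, vec_C_mul,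
    show d - j - 1 = d - (j + 1) by omega]
  congr 1
  rcases j with _ | j
  · simp
  · rw [show d - (j + 1) + 1 = d - (j + 1 - 1) by omega]

omit [CharZero K] in
lemma intertwine {d : ℕ} {Y : Matrix (Fin (d + 1)) (Fin (d + 1)) K} {P Q l m : K[X]} {α β γ δ : K}
    (hY : Rep d Y P Q) (hl : l.natDegree ≤ 1) (hm : m.natDegree ≤ 1)
    (h1 : P * derivative l + Q * l = C α * l + C β * m)
    (h2 : P * derivative m + Q * m = C γ * l + C δ * m) :
    Y * (Matrix.of fun i j : Fin (d + 1) => w d l m j i) =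
      (Matrix.of fun i j : Fin (d + 1) => w d l m j i) * tri d α β γ δ := by
  ext i j
  have hj : (j : ℕ) ≤ d := Nat.lt_succ_iff.mp j.isLt
  have e1 : (Y * (Matrix.of fun i j : Fin (d + 1) => w d l m j i)) i j =
      Y.mulVec (w d l m j) i := rfl
  rw [e1, act hY hl hm h1 h2 j hj, Matrix.mul_apply]
  have e2 : ∀ k : Fin (d + 1), (Matrix.of fun i j : Fin (d + 1) => w d l m j i) i k *
      tri d α β γ δ k j = (fun k : ℕ =>
        (if k = (j : ℕ) then w d l m k i * (((d : K) - (j : ℕ)) * α + (j : ℕ) * δ) else 0) +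
        (if k = (j : ℕ) + 1 then w d l m k i * (((d : K) - (j : ℕ)) * β) else 0) +
        (if (j : ℕ) = k + 1 then w d l m k i * (((j : ℕ) : K) * γ) else 0)) k := by
    intro k
    simp only [Matrix.of_apply, tri]
    by_cases c1 : (k : ℕ) = j
    · have c2 : ¬ (k : ℕ) = (j : ℕ) + 1 := by omega
      have c3 : ¬ (j : ℕ) = (k : ℕ) + 1 := by omega
      simp only [if_pos c1, if_neg c2, if_neg c3, add_zero]
    · by_cases c2 : (k : ℕ) = (j : ℕ) + 1
      · have c3 : ¬ (j : ℕ) = (k : ℕ) + 1 := by omega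
        simp only [if_neg c1, if_pos c2, if_neg c3, add_zero, zero_add]
      · by_cases c3 : (j : ℕ) = (k : ℕ) + 1
        · simp only [if_neg c1, if_neg c2, if_pos c3, zero_add]
        · simp only [if_neg c1, if_neg c2, if_neg c3, add_zero, mul_zero]
  rw [Finset.sum_congr rfl (fun k _ => e2 k), Fin.sum_univ_eq_sum_range (fun k : ℕ =>
        (if k = (j : ℕ) then w d l m k i * (((d : K) - (j : ℕ)) * α + (j : ℕ) * δ) else 0) +
        (if k = (j : ℕ) + 1 then w d l m k i * (((d : K) - (j : ℕ)) * β) else 0) +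
        (if (j : ℕ) = k + 1 then w d l m k i * (((j : ℕ) : K) * γ) else 0)),
    Finset.sum_add_distrib, Finset.sum_add_distrib]
  simp only [Pi.add_apply, Pi.smul_apply, smul_eq_mul]
  congr 1
  · congr 1
    · rw [Finset.sum_ite_eq', if_pos (Finset.mem_range.mpr j.isLt), mul_comm]
    · rw [Finset.sum_ite_eq']
      split_ifs with h
      · rw [mul_comm]
      · rw [Finset.mem_range] at h
        have : (j : ℕ) = d := by omega
        rw [this, sub_self, zero_mul, zero_mul]
  · rcases Nat.eq_zero_or_pos (j : ℕ) with h0 | hpos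
    · rw [h0]
      simp
    · rw [Finset.sum_eq_single ((j : ℕ) - 1)]
      · rw [if_pos (by omega), mul_comm]
      · intro k _ hk
        rw [if_neg (by omega)]
      · intro h
        rw [Finset.mem_range] at h
        omega

lemma w_ne {d : ℕ} {l m : K[X]} (hl : l.natDegree ≤ 1) (hm : m.natDegree ≤ 1) (hl0 : l ≠ 0)
    (hm0 : m ≠ 0) (j : ℕ) (hj : j ≤ d) : w d l m j ≠ 0 := by
  intro h
  have hne : l ^ (d - j) * m ^ j ≠ 0 := mul_ne_zero (pow_ne_zero _ hl0) (pow_ne_zero _ hm0)
  apply hne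
  ext i
  rw [coeff_zero]
  rcases Nat.lt_or_ge d i with hi | hi
  · exact coeff_eq_zero_of_natDegree_lt (lt_of_le_of_lt (natDegree_prod hj hl hm) hi)
  · have h1 := congrFun h ⟨i, by omega⟩
    simp only [w, vec, Pi.zero_apply] at h1
    rcases div_eq_zero_iff.mp h1 with h2 | h2
    · exact h2
    · exact absurd h2 (choose_ne d i hi)

lemma tri_irred (d : ℕ) {α β γ δ : K} (hβ : β ≠ 0) (hγ : γ ≠ 0) :
    IrredTridiag (tri d α β γ δ) := by
  constructor
  · intro i j hij
    simp only [tri, Matrix.of_apply]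
    rw [if_neg (by omega), if_neg (by omega), if_neg (by omega)]
  · intro i j hij
    have hj : (j : ℕ) ≤ d := Nat.lt_succ_iff.mp j.isLt
    have hi : (i : ℕ) ≤ d := Nat.lt_succ_iff.mp i.isLt
    simp only [tri, Matrix.of_apply]
    rcases hij with h | h
    · rw [if_neg (by omega), if_neg (by omega), if_pos h.symm]
      refine mul_ne_zero ?_ hγ
      have : (j : ℕ) ≠ 0 := by omega
      exact_mod_cast this
    · rw [if_neg (by omega), if_pos h.symm]
      refine mul_ne_zero ?_ hβ
      rw [sub_ne_zero]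
      have : d ≠ (j : ℕ) := by omega
      exact_mod_cast this

/-- The general construction of the bases. -/
lemma good {d : ℕ} {M Y Z : Matrix (Fin (d + 1)) (Fin (d + 1)) K} {P₁ Q₁ P₂ Q₂ P₃ Q₃ l m : K[X]}
    {c α β γ δ α' β' γ' δ' : K} (hM : Rep d M P₁ Q₁) (hY : Rep d Y P₂ Q₂) (hZ : Rep d Z P₃ Q₃)
    (hl : l.natDegree ≤ 1) (hm : m.natDegree ≤ 1) (hl0 : l ≠ 0) (hm0 : m ≠ 0) (hc : c ≠ 0)
    (h1 : P₁ * derivative l + Q₁ * l = C c * l + C 0 * m)
    (h2 : P₁ * derivative m + Q₁ * m = C 0 * l + C (-c) * m)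
    (h3 : P₂ * derivative l + Q₂ * l = C α * l + C β * m)
    (h4 : P₂ * derivative m + Q₂ * m = C γ * l + C δ * m)
    (h5 : P₃ * derivative l + Q₃ * l = C α' * l + C β' * m)
    (h6 : P₃ * derivative m + Q₃ * m = C γ' * l + C δ' * m)
    (hβ : β ≠ 0) (hγ : γ ≠ 0) (hβ' : β' ≠ 0) (hγ' : γ' ≠ 0) : ∃ P, GoodBasis P M Y Z := by
  set W : Matrix (Fin (d + 1)) (Fin (d + 1)) K := Matrix.of fun i j : Fin (d + 1) => w d l m j i
    with hW
  have hunit : IsUnit W := by
    rw [← Matrix.linearIndependent_cols_iff_isUnit]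
    have hinj : Function.Injective (fun j : Fin (d + 1) => ((d : K) - 2 * (j : ℕ)) * c) := by
      intro i j hij
      simp only at hij
      have h7 := mul_right_cancel₀ hc hij
      have h8 : ((i : ℕ) : K) = ((j : ℕ) : K) := by
        have h9 : (2 : K) ≠ 0 := two_ne_zero
        apply mul_left_cancel₀ h9
        linear_combination -h7
      exact Fin.ext (by exact_mod_cast h8)
    refine Module.End.eigenvectors_linearIndependent' (Matrix.toLin' M)
      (fun j : Fin (d + 1) => ((d : K) - 2 * (j : ℕ)) * c) hinj _ (fun j => ?_)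
    have hj : (j : ℕ) ≤ d := Nat.lt_succ_iff.mp j.isLt
    have hcol : W.col j = w d l m j := rfl
    rw [Module.End.hasEigenvector_iff, Module.End.mem_eigenspace_iff, Matrix.toLin'_apply, hcol]
    refine ⟨?_, w_ne hl hm hl0 hm0 j hj⟩
    rw [act hM hl hm h1 h2 j hj, mul_zero, zero_smul, mul_zero, zero_smul, add_zero, add_zero]
    congr 1
    ring
  have e1 := intertwine hM hl hm h1 h2
  have e2 := intertwine hY hl hm h3 h4
  have e3 := intertwine hZ hl hm h5 h6
  rw [← hW] at e1 e2 e3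
  have hval : ∀ N T : Matrix (Fin (d + 1)) (Fin (d + 1)) K, N * W = W * T →
      hunit.unit⁻¹.val * N * hunit.unit.val = T := by
    intro N T h
    rw [Matrix.mul_assoc, IsUnit.unit_spec, h, ← Matrix.mul_assoc]
    have : hunit.unit⁻¹.val * W = 1 := by
      have := hunit.unit.inv_mul
      rwa [IsUnit.unit_spec] at this
    rw [this, Matrix.one_mul]
  refine ⟨hunit.unit, ⟨fun j => ((d : K) - (j : ℕ)) * c + (j : ℕ) * (-c), ?_⟩, ?_, ?_⟩
  · rw [hval _ _ e1]
    ext i j
    simp only [tri, Matrix.of_apply, Matrix.diagonal_apply, mul_zero, ite_self]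
    by_cases h : i = j
    · rw [if_pos h, if_pos (by rw [h]), h]
    · rw [if_neg h, if_neg (fun h' => h (Fin.ext h'))]
  · rw [hval _ _ e2]
    exact tri_irred d hβ hγ
  · rw [hval _ _ e3]
    exact tri_irred d hβ' hγ'


lemma leonard (d : ℕ) : LeonardTriple (matA K d) (matB K d) (matE K d) := by
  have d0 : (1 : K[X]).natDegree ≤ 1 := by simp
  have dX : (X : K[X]).natDegree ≤ 1 := natDegree_X_le
  have d1 : (1 + X : K[X]).natDegree ≤ 1 := by compute_degree
  have d2 : (1 - X : K[X]).natDegree ≤ 1 := by compute_degree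
  have d3 : (3 + X : K[X]).natDegree ≤ 1 := by compute_degree
  have d4 : (1 - 3 * X : K[X]).natDegree ≤ 1 := by compute_degree
  have n1 : (1 + X : K[X]) ≠ 0 := by
    intro h; have := congrArg (fun p => coeff p 0) h; simp at this
  have n2 : (1 - X : K[X]) ≠ 0 := by
    intro h; have := congrArg (fun p => coeff p 0) h; simp at this
  have n3 : (3 + X : K[X]) ≠ 0 := by
    intro h; have := congrArg (fun p => coeff p 1) h; simp [coeff_ofNat_succ] at this
  have n4 : (1 - 3 * X : K[X]) ≠ 0 := by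
    intro h; have := congrArg (fun p => coeff p 0) h; simp at this
  have c5 : (C (5 : K)⁻¹ : K[X]) * 5 = 1 := by
    rw [← C_5, ← C_mul, inv_mul_cancel₀ (by norm_num), C_1]
  have r5 : ∀ a : K, (C (a / 5) : K[X]) = C a * C (5 : K)⁻¹ := fun a => by
    rw [← C_mul, div_eq_mul_inv]
  refine ⟨?_, ?_, ?_⟩
  · refine good (l := 1 + X) (m := 1 - X) (c := 1) (α := 0) (β := 1) (γ := 1) (δ := 0) (α' := 3)
      (β' := 4) (γ' := 4) (δ' := -3) (rep_A d) (rep_B d) (rep_E d) d1 d2 n1 n2 one_ne_zero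
      ?_ ?_ ?_ ?_ ?_ ?_ one_ne_zero one_ne_zero (by norm_num) (by norm_num)
    all_goals simp [C_3, C_4]
    all_goals ring
  · refine good (l := 1) (m := X) (c := 1) (α := 4) (β := 3) (γ := 3) (δ := -4) (α' := 0)
      (β' := 1) (γ' := 1) (δ' := 0) (rep_B d) (rep_E d) (rep_A d) d0 dX one_ne_zero X_ne_zero
      one_ne_zero ?_ ?_ ?_ ?_ ?_ ?_ (by norm_num) (by norm_num) one_ne_zero one_ne_zero
    all_goals simp [C_3, C_4]
    all_goals ring
  · refine good (l := 3 + X) (m := 1 - 3 * X) (c := 5) (α := 3 / 5) (β := -4 / 5) (γ := -4 / 5)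
      (δ := -3 / 5) (α' := 4 / 5) (β' := 3 / 5) (γ' := 3 / 5) (δ' := -4 / 5)
      (rep_E d) (rep_A d) (rep_B d) d3 d4 n3 n4 (by norm_num)
      ?_ ?_ ?_ ?_ ?_ ?_ (by norm_num) (by norm_num) (by norm_num) (by norm_num)
    · simp [C_5]; ring
    · simp [C_5]; ring
    · rw [r5, r5, C_neg, C_3, C_4]
      simp
      linear_combination (-(1 + 3 * X)) * c5
    · rw [r5, r5, C_neg, C_neg, C_3, C_4]
      simp
      linear_combination (-(-3 + X)) * c5
    · rw [r5, r5, C_3, C_4]
      simp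
      linear_combination (-(3 - X)) * c5
    · rw [r5, r5, C_neg, C_3, C_4]
      simp
      linear_combination (-(1 + 3 * X)) * c5

/-- The q-commutators are not in the span. -/
lemma not_in_span (d : ℕ) (hd : 2 ≤ d) (q : K) :
    qc q (matA K d) (matB K d) ∉ Sp (matA K d) (matB K d) (matE K d) := by
  intro h
  unfold qc Sp at h
  rw [Submodule.mem_span_insert] at h
  obtain ⟨a, z, hz, h⟩ := h
  rw [Submodule.mem_span_insert] at hz
  obtain ⟨b, z', hz', rfl⟩ := hz
  rw [Submodule.mem_span_insert] at hz'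
  obtain ⟨c, z'', hz'', rfl⟩ := hz'
  rw [Submodule.mem_span_singleton] at hz''
  obtain ⟨e, rfl⟩ := hz''
  have i0 : (0 : ℕ) < d + 1 := by omega
  have i1 : (1 : ℕ) < d + 1 := by omega
  have i2 : (2 : ℕ) < d + 1 := by omega
  have h12 := congrFun (congrFun h ⟨1, i1⟩) ⟨2, i2⟩
  have h10 := congrFun (congrFun h ⟨1, i1⟩) ⟨0, i0⟩
  have hne : (⟨1, i1⟩ : Fin (d + 1)) ≠ ⟨0, i0⟩ := by simp
  have hne' : (⟨1, i1⟩ : Fin (d + 1)) ≠ ⟨2, i2⟩ := by simp
  simp only [matB, matE, Matrix.sub_apply, Matrix.mul_diagonal, Matrix.diagonal_mul,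
    Matrix.add_apply, Matrix.smul_apply, smul_eq_mul, Matrix.one_apply_ne hne,
    Matrix.one_apply_ne hne', Matrix.diagonal_apply_ne _ hne,
    Matrix.diagonal_apply_ne _ hne', matA, Matrix.of_apply] at h12 h10
  simp at h12 h10
  have hd1 : (d : K) - 1 ≠ 0 := by
    rw [sub_ne_zero]
    have : d ≠ 1 := by omega
    exact_mod_cast this
  have e1 : ((d : K) - 1) * ((d : K) - 2 * 2 - q * ((d : K) - 2)) =
      ((d : K) - 1) * (b + e * 3) := by linear_combination h12
  have e2 := mul_left_cancel₀ hd1 e1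
  have e3 : (4 : K) = 0 := by linear_combination h10 - e2
  norm_num at e3

/-- **No q-commutator relations in general.**  For every algebraically closed field `K` of
characteristic `0` and every `d ≥ 2` there is a Leonard triple `A, B, E` on `K ^ (d + 1)` such that
for no `q ∈ K` the element `A B - q B A` lies in the span of `I, A, B, E`.  In particular the
statement of the problem is false. -/
theorem result : (∀ (K : Type) [Field K] [IsAlgClosed K] [CharZero K] (d : ℕ), 2 ≤ d →
      ∃ A B E : Matrix (Fin (d + 1)) (Fin (d + 1)) K, LeonardTriple A B E ∧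
        ∀ q : K, qc q A B ∉ Sp A B E) ∧
    ¬ ∀ (K : Type) [Field K] (d : ℕ) (A B E : Matrix (Fin (d + 1)) (Fin (d + 1)) K),
      LeonardTriple A B E → ∃ q : K, q ≠ 0 ∧
        qc q A B ∈ Sp A B E ∧ qc q B E ∈ Sp A B E ∧ qc q E A ∈ Sp A B E := by
  refine ⟨fun K _ _ _ d hd => ⟨matA K d, matB K d, matE K d, leonard d, not_in_span d hd⟩, ?_⟩
  intro h
  obtain ⟨q, _, hq, _⟩ := h ℂ 2 (matA ℂ 2) (matB ℂ 2) (matE ℂ 2) (leonard 2)
  exact not_in_span 2 le_rfl q hq

end Pool.Agent.Results.MP_4722b0_al.NoCommonQ
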